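import Pool.Agent.MP_3a00c0_gt.Mg.Final

/-! Totally geodesic hypersurfaces in a homogeneous positively curved manifold. -/

open Set Metric Filter Topology
open scoped ContDiff RealInnerProductSpace

set_option maxSynthPendingDepth 3
set_option linter.unusedSectionVars false

namespace Pool.Agent.MP_e2979e_gt

open Pool.Agent.MP_3fed84_gt Pool.Agent.MP_3a00c0_gt

variable {E E' : Type} [NormedAddCommGroup E] [InnerProductSpace ℝ E] [FiniteDimensional ℝ E]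
  [NormedAddCommGroup E'] [InnerProductSpace ℝ E'] [FiniteDimensional ℝ E']

theorem tangent_range {g : E → E'} {D : E →L[ℝ] E'} {y : ℝ → E} (hg : HasFDerivAt g D (y 0))
    (hD : Function.Injective D) (hy : ContinuousAt y 0) {b : ℝ → E'} {u : E'}
    (hb : HasDerivAt b u 0) (he : ∀ᶠ s in 𝓝 (0 : ℝ), b s = g (y s)) : ∃ a, D a = u := by
  obtain ⟨K, -, hK⟩ := (LinearMap.injective_iff_antilipschitz (D : E →ₗ[ℝ] E')).1 hD
  have hind : Topology.IsInducing D := (hK.isUniformInducing D.uniformContinuous).isInducing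
  have h0 : b 0 = g (y 0) := he.self_of_nhds
  have h1 : (fun s => y s - y 0) =O[𝓝 0] fun s => g (y s) - g (y 0) :=
    ((hg.isTheta_sub hind).symm.isBigO).comp_tendsto hy
  have h2 : (fun s => g (y s) - g (y 0)) =O[𝓝 0] fun s : ℝ => s - 0 := by
    refine hb.isBigO_sub.congr' ?_ EventuallyEq.rfl
    filter_upwards [he] with s hs
    rw [hs, h0]
  have h3 : (fun s => g (y s) - g (y 0) - D (y s - y 0)) =o[𝓝 0] fun s : ℝ => s - 0 :=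
    (hg.isLittleO.comp_tendsto hy).trans_isBigO (h1.trans h2)
  have h4 : HasDerivAt (fun s => D (y s - y 0)) u 0 := by
    rw [hasDerivAt_iff_isLittleO]
    refine (hb.isLittleO.sub h3).congr' ?_ EventuallyEq.rfl
    filter_upwards [he] with s hs
    rw [hs, h0]
    simp
  have h5 : u ∈ LinearMap.range (D : E →ₗ[ℝ] E') := by
    refine (LinearMap.range (D : E →ₗ[ℝ] E')).closed_of_finiteDimensional.mem_of_tendsto
      h4.tendsto_slope (Eventually.of_forall fun s => ?_)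
    rw [slope_def_module]
    exact Submodule.smul_mem _ _ (Submodule.sub_mem _ ⟨_, rfl⟩ ⟨_, rfl⟩)
  exact h5

theorem exists_functional {D : E →L[ℝ] E'} (hD : Function.Injective D)
    (hd : Module.finrank ℝ E' = Module.finrank ℝ E + 1) :
    (∃ l : E' →ₗ[ℝ] ℝ, ∀ u, l u = 0 → ∃ a, D a = u) ∧ ∃ u, ∀ a, D a ≠ u := by
  have h1 := LinearMap.finrank_range_of_inj (f := (D : E →ₗ[ℝ] E')) hD
  have h2 := (LinearMap.range (D : E →ₗ[ℝ] E')).finrank_quotient_add_finrank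
  have h3 : Module.finrank ℝ (E' ⧸ LinearMap.range (D : E →ₗ[ℝ] E')) = Module.finrank ℝ ℝ := by
    rw [Module.finrank_self]
    omega
  constructor
  · obtain ⟨e⟩ := FiniteDimensional.nonempty_linearEquiv_of_finrank_eq h3
    refine ⟨e.toLinearMap.comp (LinearMap.range (D : E →ₗ[ℝ] E')).mkQ, fun u hu => ?_⟩
    have h4 : (LinearMap.range (D : E →ₗ[ℝ] E')).mkQ u = 0 := e.injective (by simpa using hu)
    exact (Submodule.Quotient.mk_eq_zero _).1 h4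
  · by_contra hn
    push Not at hn
    have h4 : LinearMap.range (D : E →ₗ[ℝ] E') = ⊤ := eq_top_iff.2 fun u _ => hn u
    rw [h4, finrank_top] at h1
    omega

variable {M N : Type} [TopologicalSpace M] [TopologicalSpace N]

/-- The coordinate expression of f. -/
def ex2 (c : Chart E M) (c' : Chart E' N) (f : M → N) : E → E' := c'.ψ ∘ f ∘ c.ψ.symm

/-- The differential of f at m in coordinates. -/
noncomputable def dd (c : Chart E M) (c' : Chart E' N) (f : M → N) (m : M) : E →L[ℝ] E' :=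
  fderiv ℝ (ex2 c c' f) (c.ψ m)

/-- f is an injective differentiable map sending a full family of geodesics to geodesics. -/
structure TG (𝒜 : Atlas E M) (ℬ : Atlas E' N) (f : M → N) : Prop where
  cont : Continuous f
  inj : Function.Injective f
  diff : ∀ c ∈ 𝒜.S, ∀ c' ∈ ℬ.S, ∀ m ∈ c.ψ.source, f m ∈ c'.ψ.source →
    DifferentiableAt ℝ (ex2 c c' f) (c.ψ m)
  geo : ∀ c ∈ 𝒜.S, ∀ m ∈ c.ψ.source, ∀ a : E, ∃ γ : ℝ → M, γ 0 = m ∧
    HasDerivAt (c.ψ ∘ γ) a 0 ∧ ∀ t, GeoAt 𝒜 γ t ∧ GeoAt ℬ (f ∘ γ) t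

variable {𝒜 : Atlas E M} {ℬ : Atlas E' N} {f f' : M → N}

theorem geoAt_const (ℬ : Atlas E' N) (p : N) (t : ℝ) : GeoAt ℬ (fun _ => p) t := by
  obtain ⟨c, hc, hm, -⟩ := ℬ.norm p
  refine ⟨c, hc, fun _ => 0, Eventually.of_forall fun s => ⟨continuousAt_const, hm⟩,
    Eventually.of_forall fun s => ⟨hasDerivAt_const s (c.ψ p), ?_⟩⟩
  simpa using hasDerivAt_const s (0 : E')

theorem TG.chain (h : TG 𝒜 ℬ f) {c : Chart E M} (hc : c ∈ 𝒜.S) {c' : Chart E' N}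
    (hc' : c' ∈ ℬ.S) {γ : ℝ → M} (hm : γ 0 ∈ c.ψ.source) (hm' : f (γ 0) ∈ c'.ψ.source)
    (hγ : ContinuousAt γ 0) {a : E} (ha : HasDerivAt (c.ψ ∘ γ) a 0) :
    HasDerivAt (c'.ψ ∘ f ∘ γ) (dd c c' f (γ 0) a) 0 := by
  refine ((h.diff c hc c' hc' _ hm hm').hasFDerivAt.comp_hasDerivAt (0 : ℝ)
    ha).congr_of_eventuallyEq ?_
  filter_upwards [hγ.eventually (c.ψ.open_source.mem_nhds hm)] with s hs
  simp only [ex2, Function.comp, c.ψ.left_inv hs]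

theorem TG.dd_inj (h : TG 𝒜 ℬ f) {c : Chart E M} (hc : c ∈ 𝒜.S) {c' : Chart E' N}
    (hc' : c' ∈ ℬ.S) {m : M} (hm : m ∈ c.ψ.source) (hm' : f m ∈ c'.ψ.source) :
    Function.Injective (dd c c' f m) := by
  rw [injective_iff_map_eq_zero]
  intro a ha
  obtain ⟨γ, rfl, h1, h2⟩ := h.geo c hc m hm a
  have h3 := h.chain hc hc' hm hm' (h2 0).1.continuousAt h1
  rw [ha] at h3
  have h4 := (h2 0).2.unique_nhds (geoAt_const ℬ (f (γ 0)) 0) hc' hm' rfl h3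
    (hasDerivAt_const (0 : ℝ) (c'.ψ (f (γ 0))))
  have h5 : (c.ψ ∘ γ) =ᶠ[𝓝 0] fun _ => c.ψ (γ 0) := by
    filter_upwards [h4] with s hs
    exact congrArg c.ψ (h.inj hs)
  exact h1.unique ((hasDerivAt_const (0 : ℝ) (c.ψ (γ 0))).congr_of_eventuallyEq h5)

variable [T2Space M] [CompactSpace M] [PreconnectedSpace M] [T2Space N] [CompactSpace N]
  [PreconnectedSpace N]

/-- Velocities of curves inside the image lie in the image of the differential. -/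
theorem TG.tangent (h : TG 𝒜 ℬ f) {c : Chart E M} (hc : c ∈ 𝒜.S) {c' : Chart E' N}
    (hc' : c' ∈ ℬ.S) {m : M} (hm : m ∈ c.ψ.source) (hm' : f m ∈ c'.ψ.source) {β : ℝ → N}
    (h0 : β 0 = f m) (hβ : ContinuousAt β 0) (hr : ∀ᶠ s in 𝓝 (0 : ℝ), β s ∈ range f) {u : E'}
    (hu : HasDerivAt (c'.ψ ∘ β) u 0) : ∃ a, dd c c' f m a = u := by
  haveI : Nonempty M := ⟨m⟩
  let γ : ℝ → M := fun s => Function.invFun f (β s)
  have h1 : ∀ᶠ s in 𝓝 (0 : ℝ), f (γ s) = β s := hr.mono fun s hs => Function.invFun_eq hs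
  have h2 : γ 0 = m := h.inj (h1.self_of_nhds.trans h0)
  have h3 : ContinuousAt γ 0 := by
    rw [(h.cont.isClosedEmbedding h.inj).isInducing.continuousAt_iff]
    exact hβ.congr (h1.mono fun s hs => hs.symm)
  subst h2
  refine tangent_range (y := c.ψ ∘ γ) (h.diff c hc c' hc' _ hm hm').hasFDerivAt
    (h.dd_inj hc hc' hm hm') (ContinuousAt.comp (c.ψ.continuousAt hm) h3) hu ?_
  filter_upwards [h1, h3.eventually (c.ψ.open_source.mem_nhds hm)] with s k1 k2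
  simp only [ex2, Function.comp, c.ψ.left_inv k2, k1]

theorem TG.exists_not_mem (h : TG 𝒜 ℬ f) (hd : Module.finrank ℝ E' = Module.finrank ℝ E + 1)
    (m : M) : ∃ p, p ∉ range f := by
  by_contra hn
  push Not at hn
  obtain ⟨c, hc, hm, -⟩ := 𝒜.norm m
  obtain ⟨c', hc', hm', -⟩ := ℬ.norm (f m)
  obtain ⟨u, hu⟩ := (exists_functional (h.dd_inj hc hc' hm hm') hd).2
  have h1 : HasDerivAt (fun s : ℝ => c'.ψ (f m) + s • u) u 0 := by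
    simpa using ((hasDerivAt_id (0 : ℝ)).smul_const u).const_add (c'.ψ (f m))
  have h2 : c'.ψ (f m) + (0 : ℝ) • u ∈ c'.ψ.target := by
    rw [zero_smul, add_zero]
    exact c'.ψ.map_source hm'
  obtain ⟨a, ha⟩ := h.tangent hc hc' hm hm' (β := fun s : ℝ => c'.ψ.symm (c'.ψ (f m) + s • u))
    (by simp only [zero_smul, add_zero, c'.ψ.left_inv hm'])
    (ContinuousAt.comp (f := fun s : ℝ => c'.ψ (f m) + s • u) (c'.ψ.continuousAt_symm h2)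
      h1.continuousAt) (Eventually.of_forall fun s => hn _) (u := u) (by
      refine h1.congr_of_eventuallyEq ?_
      filter_upwards [h1.continuousAt.eventually (c'.ψ.open_target.mem_nhds h2)] with s hs
      exact c'.ψ.right_inv hs)
  exact hu a ha

/-- A geodesic tangent to both images stays in both. -/
theorem TG.mem_of_tangent (h : TG 𝒜 ℬ f) (h' : TG 𝒜 ℬ f') {c c₁ : Chart E M} (hc : c ∈ 𝒜.S)
    (hc₁ : c₁ ∈ 𝒜.S) {c' : Chart E' N} (hc' : c' ∈ ℬ.S) {γ : ℝ → M} {m₁ : M}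
    (hm : γ 0 ∈ c.ψ.source) (hm₁ : m₁ ∈ c₁.ψ.source) (hm' : f (γ 0) ∈ c'.ψ.source)
    (he : f' m₁ = f (γ 0)) {s : Set ℝ} (hs : IsPreconnected s) (h0 : (0 : ℝ) ∈ s)
    (hγ : ∀ t ∈ s, GeoAt 𝒜 γ t) {a b : E} (ha : HasDerivAt (c.ψ ∘ γ) a 0)
    (hb : dd c₁ c' f' m₁ b = dd c c' f (γ 0) a) : ∀ t ∈ s, f (γ t) ∈ range f' := by
  obtain ⟨γ₀, e₀, d₀, g₀⟩ := h.geo c hc _ hm a
  obtain ⟨γ₁, rfl, d₁, g₁⟩ := h'.geo c₁ hc₁ _ hm₁ b
  have k1 := GeoAt.unique hs hγ (fun t _ => (g₀ t).1) h0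
    ((hγ 0 h0).unique_nhds (g₀ 0).1 hc hm e₀.symm ha d₀)
  have k2 := h.chain hc hc' (e₀ ▸ hm) (e₀ ▸ hm') (g₀ 0).1.continuousAt d₀
  have k3 := h'.chain hc₁ hc' hm₁ (he ▸ hm') (g₁ 0).1.continuousAt d₁
  rw [hb, ← e₀] at k3
  have k4 := GeoAt.unique isPreconnected_univ (fun t _ => (g₀ t).2) (fun t _ => (g₁ t).2)
    (mem_univ 0) ((g₀ 0).2.unique_nhds (g₁ 0).2 hc' (show f (γ₀ 0) ∈ _ from e₀ ▸ hm')
      (show f (γ₀ 0) = f' (γ₁ 0) by rw [he, e₀]) k2 k3)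
  intro t ht
  rw [(k1 t ht).eq_of_nhds]
  exact ⟨γ₁ t, (k4 t (mem_univ t)).eq_of_nhds.symm⟩

theorem TG.subset (h : TG 𝒜 ℬ f) (h' : TG 𝒜 ℬ f') {c c₁ : Chart E M} (hc : c ∈ 𝒜.S)
    (hc₁ : c₁ ∈ 𝒜.S) {c' : Chart E' N} (hc' : c' ∈ ℬ.S) {m m₁ : M}
    (hm : m ∈ c.ψ.source) (hm₁ : m₁ ∈ c₁.ψ.source) (hm' : f m ∈ c'.ψ.source)
    (he : f' m₁ = f m) (hT : ∀ a, ∃ b, dd c₁ c' f' m₁ b = dd c c' f m a) (q : M) :
    f q ∈ range f' := by
  rcases (d_nonneg (𝒜 := 𝒜) m q).eq_or_lt with h0 | h0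
  · rw [← rho_eq_of_d h0.ge]
    exact ⟨m₁, he⟩
  obtain ⟨σ, rfl, s1, s2⟩ := rho_exists_geo h0
  obtain ⟨a, ha, -⟩ := (s2 0 ⟨le_rfl, h0.le⟩).2 c hc hm
  obtain ⟨b, hb⟩ := hT a
  have := h.mem_of_tangent h' hc hc₁ hc' hm hm₁ hm' he isPreconnected_Icc ⟨le_rfl, h0.le⟩
    (fun t ht => (s2 t ht).1) ha hb _ ⟨h0.le, le_rfl⟩
  rwa [s1] at this

theorem TG.ray (h : TG 𝒜 ℬ f) {c : Chart E M} (hc : c ∈ 𝒜.S) {c' : Chart E' N}
    (hc' : c' ∈ ℬ.S) {m : M} (hm : m ∈ c.ψ.source) (hm' : f m ∈ c'.ψ.source) (a : E) (s : ℝ) :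
    ∃ q, Ray ℬ c' (f m) (s • dd c c' f m a) (f q) := by
  obtain ⟨γ, rfl, h1, h2⟩ := h.geo c hc m hm (s • a)
  refine ⟨γ 1, hm', f ∘ γ, fun t _ => (h2 t).2, rfl, ?_, rfl⟩
  rw [← map_smul]
  exact h.chain hc hc' hm hm' (h2 0).1.continuousAt h1

/-- Positive sectional curvature at the centre of every normalised chart at p. -/
def PosAt (ℬ : Atlas E' N) (p : N) : Prop :=
  ∀ c ∈ ℬ.S, c.NormAt p → ∀ v w : E', LinearIndependent ℝ ![v, w] → 0 < ⟪Rm c.Γ 0 v w w, v⟫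

theorem frankel_aux {α κ : ℝ} (hκ : 0 ≤ κ)
    (h : ∀ ε > 0, ∀ᶠ s : ℝ in 𝓝 0, s * α + (κ - ε) * s ^ 2 ≤ 0) : α = 0 ∧ κ = 0 := by
  have h1 : α = 0 := by
    have ht : Tendsto (fun τ : ℝ => τ * α) (𝓝[>] 0) (𝓝 0) := by
      have : Continuous fun τ : ℝ => τ * α := by fun_prop
      simpa using (this.tendsto 0).mono_left nhdsWithin_le_nhds
    obtain ⟨τ, k1, k2⟩ := ((ht.eventually (h 1 one_pos)).and
      (Ioo_mem_nhdsGT (show (0 : ℝ) < 1 by norm_num))).exists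
    have k3 : τ * (1 - τ) * α ^ 2 ≤ 0 := by nlinarith [mul_nonneg hκ (sq_nonneg (τ * α))]
    have k4 : 0 < τ * (1 - τ) := mul_pos k2.1 (by linarith [k2.2])
    have k5 : α ^ 2 ≤ 0 := by
      by_contra hn
      exact absurd k3 (not_le.2 (mul_pos k4 (not_le.1 hn)))
    exact pow_eq_zero_iff two_ne_zero |>.1 (le_antisymm k5 (sq_nonneg α))
  refine ⟨h1, le_antisymm ?_ hκ⟩
  by_contra hn
  have hp : 0 < κ := not_le.1 hn
  obtain ⟨s, k1, k2⟩ := (((h (κ / 2) (by linarith)).filter_mono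
    (nhdsWithin_le_nhds (s := Ioi (0 : ℝ)))).and self_mem_nhdsWithin).exists
  have k3 : 0 < s := k2
  rw [h1] at k1
  nlinarith [mul_pos hp (pow_pos k3 2)]

/-- Frankel's theorem for two hypersurfaces. -/
theorem TG.frankel (h : TG 𝒜 ℬ f) (h' : TG 𝒜 ℬ f') (hn : Nonneg ℬ) (hp : ∀ p, PosAt ℬ p)
    (hd : Module.finrank ℝ E' = Module.finrank ℝ E + 1) (h2 : 1 < Module.finrank ℝ E) (m : M) :
    ∃ m₀ m₁, f' m₁ = f m₀ := by
  have hF : IsClosed (range f') := (isCompact_range h'.cont).isClosed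
  obtain ⟨m₀, -, hmin⟩ := isCompact_univ.exists_isMinOn ⟨m, mem_univ m⟩
    ((continuous_rho (𝒜 := ℬ) (range f')).comp h.cont).continuousOn
  by_contra hne
  have hx : f m₀ ∉ range f' := fun ⟨m₁, e⟩ => hne ⟨m₀, m₁, e⟩
  obtain ⟨σ, s0, hσ⟩ := exists_minGeo (𝒜 := ℬ) hF ⟨f' m, m, rfl⟩ hx
  set r := rho ℬ (range f') (f m₀) with hr
  obtain ⟨m₁, e₁⟩ := hσ.end_mem hF
  obtain ⟨c₀, hc₀, n₀⟩ := ℬ.norm (σ 0)
  obtain ⟨c₁, hc₁, n₁⟩ := ℬ.norm (σ r)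
  obtain ⟨a₀, ha₀, ma₀, -⟩ := 𝒜.norm m₀
  obtain ⟨a₁, ha₁, ma₁, -⟩ := 𝒜.norm m₁
  obtain ⟨v, hv, hv1⟩ := rho_norm_one (hσ.geo 0 ⟨le_rfl, hσ.pos.le⟩).2 hc₀ n₀
  obtain ⟨n, hn', -⟩ := rho_norm_one (hσ.geo r ⟨hσ.pos.le, le_rfl⟩).2 hc₁ n₁
  obtain ⟨P, -, -, hw⟩ := second_variation hn hσ.pos hσ.geo hc₀ hc₁ n₀ n₁ hv hn'
  have f0 : f m₀ ∈ c₀.ψ.source := s0 ▸ n₀.1
  have f1 : f' m₁ ∈ c₁.ψ.source := e₁ ▸ n₁.1
  obtain ⟨l, hl⟩ := (exists_functional (h'.dd_inj ha₁ hc₁ ma₁ f1) hd).1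
  set D := dd a₀ c₀ f m₀ with hD
  let L : E →L[ℝ] E' := P.comp (D - ((innerSL ℝ v).comp D).smulRight v)
  have hL : ∀ a, L a = P (D a - ⟪v, D a⟫ • v) := fun a => rfl
  obtain ⟨a, ha, ha0⟩ := (Submodule.ne_bot_iff _).1
    ((l.comp (L : E →ₗ[ℝ] E')).ker_ne_bot_of_finrank_lt (by rwa [Module.finrank_self]))
  obtain ⟨b, hb⟩ := hl (L a) ha
  obtain ⟨κ, k0, k1, k2⟩ := hw (D a)
  have key : ⟪v, D a⟫ = 0 ∧ κ = 0 := by
    refine frankel_aux k0 fun ε hε => ?_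
    have ht : Tendsto (fun s : ℝ => (s, D a)) (𝓝 0) (𝓝 (0, D a)) :=
      (Continuous.prodMk_left (D a)).tendsto 0
    filter_upwards [ht.eventually (k2 ε hε)] with s hs
    obtain ⟨q₀, r₀⟩ := h.ray ha₀ hc₀ ma₀ f0 a s
    obtain ⟨q₁, r₁⟩ := h'.ray ha₁ hc₁ ma₁ f1 b s
    rw [hb, hL, e₁] at r₁
    rw [← s0] at r₀
    have e1 := hs _ _ r₀ r₁
    have e2 : r ≤ rho ℬ (range f') (f q₀) := hmin (mem_univ q₀)
    have e3 := rho_le (𝒜 := ℬ) (F := range f') (f q₀) ⟨q₁, rfl⟩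
    linarith
  have hw0 : D a ≠ 0 := fun h0 => ha0 (h.dd_inj ha₀ hc₀ ma₀ f0 (h0.trans (map_zero _).symm))
  have hli : LinearIndependent ℝ ![v, D a] := by
    rw [LinearIndependent.pair_iff]
    intro s t hst
    have e1 := congrArg (fun z => ⟪v, z⟫) hst
    simp only [inner_add_right, inner_smul_right, key.1, real_inner_self_eq_norm_sq, hv1,
      inner_zero_right] at e1
    have e2 : s = 0 := by linarith
    rw [e2, zero_smul, zero_add] at hst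
    exact ⟨e2, (smul_eq_zero.1 hst).resolve_right hw0⟩
  exact (k1 (hp _ c₀ hc₀ n₀ v _ hli)).ne' key.2

/-- There is no totally geodesic hypersurface, in a strong form. -/
def Star (𝒜 : Atlas E M) : Prop :=
  ∀ m, ∃ c ∈ 𝒜.S, m ∈ c.ψ.source ∧ ∀ (l : E →ₗ[ℝ] ℝ) (S : Set M),
    (∀ (γ : ℝ → M) (a : E), γ 0 = m → (∀ t, GeoAt 𝒜 γ t) → HasDerivAt (c.ψ ∘ γ) a 0 → l a = 0 →
      ∀ t, γ t ∈ S) →
    ∃ q ∈ S, ∃ c₁ ∈ 𝒜.S, q ∈ c₁.ψ.source ∧ ∀ K : Submodule ℝ E,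
      (∀ (β : ℝ → M) (u : E), β 0 = q → ContinuousAt β 0 → (∀ᶠ s in 𝓝 (0 : ℝ), β s ∈ S) →
        HasDerivAt (c₁.ψ ∘ β) u 0 → u ∈ K) → K = ⊤

theorem TG.subset_of_star (h : TG 𝒜 ℬ f) (h' : TG 𝒜 ℬ f') (hs : Star 𝒜)
    (hd : Module.finrank ℝ E' = Module.finrank ℝ E + 1) {m₀ m₁ : M} (he : f' m₁ = f m₀) (q : M) :
    f q ∈ range f' := by
  obtain ⟨c, hc, hm, hS⟩ := hs m₀
  obtain ⟨c₁, hc₁, hm₁, -⟩ := 𝒜.norm m₁
  obtain ⟨c', hc', hm', -⟩ := ℬ.norm (f m₀)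
  obtain ⟨l, hl⟩ := (exists_functional (h'.dd_inj hc₁ hc' hm₁ (he ▸ hm')) hd).1
  obtain ⟨z, ⟨z₁, hz⟩, c₂, hc₂, hz₂, hK⟩ := hS (l.comp (dd c c' f m₀ : E →ₗ[ℝ] E'))
    (f ⁻¹' range f') (by
      rintro γ a rfl k1 k2 k3 t
      obtain ⟨b, hb⟩ := hl _ k3
      exact h.mem_of_tangent h' hc hc₁ hc' hm hm₁ hm' he isPreconnected_univ (mem_univ 0)
        (fun t _ => k1 t) k2 hb t (mem_univ t))
  obtain ⟨c₃, hc₃, hz₃, -⟩ := 𝒜.norm z₁
  obtain ⟨c'', hc'', hz', -⟩ := ℬ.norm (f z)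
  have hT := hK ((LinearMap.range (dd c₃ c'' f' z₁ : E →ₗ[ℝ] E')).comap
    (dd c₂ c'' f z : E →ₗ[ℝ] E')) (by
      rintro β u rfl k1 k2 k3
      exact h'.tangent hc₃ hc'' hz₃ (hz ▸ hz') (β := f ∘ β) hz.symm
        (ContinuousAt.comp h.cont.continuousAt k1) k2 (h.chain hc₂ hc'' hz₂ hz' k1 k3))
  refine h.subset h' hc₂ hc₃ hc'' hz₂ hz₃ hz' hz (fun a => ?_) q
  have : a ∈ (⊤ : Submodule ℝ E) := Submodule.mem_top
  rw [← hT] at this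
  exact this

theorem TG.comp (h : TG 𝒜 ℬ f) {φ : N → N} (hφ : ∀ p, LI0 ℬ ℬ φ p) (hi : Function.Injective φ) :
    TG 𝒜 ℬ (φ ∘ f) := by
  refine ⟨(continuous_iff_continuousAt.2 fun p => (hφ p).1).comp h.cont, hi.comp h.inj,
    fun c hc c' hc' m hm hm' => ?_, fun c hc m hm a => ?_⟩
  · obtain ⟨c'', hc'', hz, -⟩ := ℬ.norm (f m)
    have h1 := h.diff c hc c'' hc'' m hm hz
    have h2 := ((hφ (f m)).2 c'' hc'' c' hc' hz hm').1.differentiableAt (by simp)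
    have e : ex2 c c'' f (c.ψ m) = c''.ψ (f m) := by
      simp only [ex2, Function.comp, c.ψ.left_inv hm]
    rw [← e] at h2
    refine (h2.comp _ h1).congr_of_eventuallyEq ?_
    filter_upwards [(h.cont.continuousAt.tendsto.comp (c.ψ.tendsto_symm hm)).eventually
      (c''.ψ.open_source.mem_nhds hz)] with y hy
    simp only [ex2, Chart.ex, Function.comp] at hy ⊢
    rw [c''.ψ.left_inv hy]
  · obtain ⟨γ, h0, h1, h2⟩ := h.geo c hc m hm a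
    exact ⟨γ, h0, h1, fun t => ⟨(h2 t).1, (h2 t).2.push (Eventually.of_forall hφ)⟩⟩

theorem posAt_map {φ : N → N} (hφ : ∀ p, LI0 ℬ ℬ φ p) {p : N} (h : PosAt ℬ (φ p)) :
    PosAt ℬ p := by
  intro c hc hn v w hvw
  obtain ⟨c', hc', hn'⟩ := ℬ.norm (φ p)
  have k := LI.coord (Eventually.of_forall hφ) hc hc' hn.1 hn'.1
  have e : c.ex c' φ 0 = 0 := by
    rw [← hn.2.1, c.ex_apply c' φ hn.1, hn'.2.1, hn.2.1]
  rw [hn.2.1] at k
  have k0 := k.self_of_nhds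
  have h1 := rm_iso c.chr c'.chr k0.1 k0.2.1 (k.mono fun z hz => hz.2.2) v w w
  have h2 := k0.2.2.2 (Rm c.Γ 0 v w w) v
  rw [← h1, e, hn.2.2, hn'.2.2] at h2
  rw [← h2]
  refine h c' hc' hn' _ _ ?_
  have hinj : LinearMap.ker (fderiv ℝ (c.ex c' φ) 0 : E' →ₗ[ℝ] E') = ⊥ :=
    LinearMap.ker_eq_bot.2 (LinearMap.injective_iff_surjective.2
      (IsoAt.surj c.chr k0.1 k0.2.2.2))
  have h3 := hvw.map' _ hinj
  have h4 : (fderiv ℝ (c.ex c' φ) 0 : E' →ₗ[ℝ] E') ∘ ![v, w]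
      = ![fderiv ℝ (c.ex c' φ) 0 v, fderiv ℝ (c.ex c' φ) 0 w] := by
    funext i
    fin_cases i <;> rfl
  rwa [h4] at h3

/-- The main obstruction. -/
theorem no_hypersurface (hs : Star 𝒜) (hn : Nonneg ℬ) {p₀ : N} (hp : PosAt ℬ p₀)
    (hh : ∀ p q : N, ∃ φ : N → N, (∀ x, LI0 ℬ ℬ φ x) ∧ Function.Injective φ ∧ φ p = q)
    (hd : Module.finrank ℝ E' = Module.finrank ℝ E + 1) (h2 : 1 < Module.finrank ℝ E) (m : M) :
    ¬ TG 𝒜 ℬ f := by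
  intro h
  obtain ⟨p, hp'⟩ := h.exists_not_mem hd m
  obtain ⟨φ, k1, k2, k3⟩ := hh (f m) p
  have hpos : ∀ x, PosAt ℬ x := fun x => by
    obtain ⟨φ', j1, -, j3⟩ := hh x p₀
    exact posAt_map j1 (j3 ▸ hp)
  obtain ⟨m₀, m₁, e⟩ := (h.comp k1 k2).frankel h hn hpos hd h2 m
  exact hp' (k3 ▸ (h.comp k1 k2).subset_of_star h hs hd e m)

end Pool.Agent.MP_e2979e_gt
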