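import Pool.Agent.MP_e2979e_gt.Mg.Amb

/-! Between atlases of coordinate metrics and Mathlib manifolds. -/

set_option backward.isDefEq.respectTransparency false
set_option maxSynthPendingDepth 3
set_option linter.unusedSectionVars false

open Set Metric Filter Topology
open scoped Manifold ContDiff RealInnerProductSpace

namespace Pool.Agent.MP_e2979e_gt

open Pool.Agent.MP_3fed84_gt Pool.Agent.MP_3a00c0_gt

variable {E : Type} [NormedAddCommGroup E] [InnerProductSpace ℝ E] [FiniteDimensional ℝ E]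
  {M : Type} [TopologicalSpace M]

theorem cgeo_smooth {U : Set E} {G : E → E →L[ℝ] E →L[ℝ] ℝ} {Γ : E → E →L[ℝ] E →L[ℝ] E}
    (h : Chr U G Γ) {c u : ℝ → E} {t : ℝ} (hc : CGeo Γ c u t) (ht : c t ∈ U) :
    ContDiffAt ℝ ∞ c t := by
  have h1 : ∀ᶠ s in 𝓝 t, c s ∈ U :=
    hc.self_of_nhds.1.continuousAt.eventually (h.opn.mem_nhds ht)
  obtain ⟨S, hS, hSo, htS⟩ := _root_.eventually_nhds_iff.1 (h1.and hc)
  have key : ∀ n : ℕ, ContDiffOn ℝ n c S ∧ ContDiffOn ℝ n u S := by
    intro n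
    induction n with
    | zero =>
      exact ⟨contDiffOn_zero.2 fun s hs => (hS s hs).2.1.continuousAt.continuousWithinAt,
        contDiffOn_zero.2 fun s hs => (hS s hs).2.2.continuousAt.continuousWithinAt⟩
    | succ n ih =>
      push_cast
      rw [contDiffOn_succ_iff_deriv_of_isOpen hSo, contDiffOn_succ_iff_deriv_of_isOpen hSo]
      refine ⟨⟨fun s hs => (hS s hs).2.1.differentiableAt.differentiableWithinAt, by simp,
        ih.2.congr fun s hs => (hS s hs).2.1.deriv⟩,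
        fun s hs => (hS s hs).2.2.differentiableAt.differentiableWithinAt, by simp, ?_⟩
      have h2 : ContDiffOn ℝ n (fun s => Γ (c s)) S :=
        (h.smΓ.of_le (nat_le_top' n)).comp ih.1 fun s hs => (hS s hs).1
      exact ((h2.clm_apply ih.2).clm_apply ih.2).neg.congr fun s hs => (hS s hs).2.2.deriv
  exact contDiffAt_infty.2 fun n => (key n).1.contDiffAt (hSo.mem_nhds htS)

theorem euler_of_cgeo {U : Set E} {G : E → E →L[ℝ] E →L[ℝ] ℝ} {Γ : E → E →L[ℝ] E →L[ℝ] E}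
    (h : Chr U G Γ) {c u : ℝ → E} {t : ℝ} (hc : CGeo Γ c u t) (ht : c t ∈ U) :
    GeodesicEquation (fun y a b => G y a b) c t := by
  intro w
  obtain ⟨h1, h2⟩ := hc.self_of_nhds
  have h3 := (h.diffG ht).hasFDerivAt.comp_hasDerivAt t h1
  have h4 := (h3.clm_apply h2).clm_apply (hasDerivAt_const t w)
  refine (h4.congr_of_eventuallyEq ?_).congr_deriv ?_
  · filter_upwards [hc.deriv_eq] with s hs
    rw [hs]
    rfl
  · rw [h1.deriv, (fderiv_form_apply (h.diffG ht) _ _).fderiv]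
    simp only [add_apply, ContinuousLinearMap.flip_apply, map_zero, add_zero,
      Function.comp_apply, h.compat _ ht, map_neg, neg_apply]
    rw [h.symΓ _ ht w, h.symm _ ht (Γ (c t) (u t) w)]
    ring

/-- A charted space structure whose preferred charts are normalised charts of the atlas. -/
theorem exists_cs (𝒜 : Atlas E M) : ∃ cs : ChartedSpace E M,
    (∀ m, ∃ c ∈ 𝒜.S, c.NormAt m ∧ c.ψ = cs.chartAt m) ∧
      ∀ e ∈ cs.atlas, ∃ c ∈ 𝒜.S, c.ψ = e := by
  choose c hc hn using 𝒜.norm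
  exact ⟨⟨{e | ∃ c ∈ 𝒜.S, c.ψ = e}, fun m => (c m).ψ, fun m => (hn m).1,
    fun m => ⟨c m, hc m, rfl⟩⟩, fun m => ⟨c m, hc m, hn m, rfl⟩, fun e he => he⟩

variable [ChartedSpace E M]

theorem isManifold_of (𝒜 : Atlas E M) (h : ∀ e ∈ atlas E M, ∃ c ∈ 𝒜.S, c.ψ = e) :
    IsManifold 𝓘(ℝ, E) ∞ M := by
  apply isManifold_of_contDiffOn
  intro e e' he he'
  obtain ⟨c, hc, rfl⟩ := h e he
  obtain ⟨c', hc', rfl⟩ := h e' he'
  simp only [modelWithCornersSelf_coe, modelWithCornersSelf_coe_symm, Function.id_comp,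
    Function.comp_id, preimage_id_eq, id_eq, range_id, inter_univ]
  intro z hz
  have h1 := (𝒜.compat c hc c' hc' _ (c.ψ.map_target hz.1) hz.2).1
  rw [c.ψ.right_inv hz.1] at h1
  exact h1.contDiffWithinAt

variable [IsManifold 𝓘(ℝ, E) ∞ M]

theorem exists_metric (𝒜 : Atlas E M) (hu : ∀ c ∈ 𝒜.S, c.ψ.target = univ)
    (h : ∀ m, ∃ c ∈ 𝒜.S, c.NormAt m ∧ c.ψ = chartAt E m) :
    ∃ g : RiemMetric E M, Models g 𝒜 := by
  have key : ∀ x y : M, ∀ c ∈ 𝒜.S, c.ψ = chartAt E x → y ∈ (chartAt E x).source → ∀ a b : E,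
      ⟪fderiv ℝ (chartAt E y ∘ (chartAt E x).symm) (chartAt E x y) a,
        fderiv ℝ (chartAt E y ∘ (chartAt E x).symm) (chartAt E x y) b⟫
        = c.G (chartAt E x y) a b := by
    intro x y c hc hψ hy a b
    obtain ⟨c', hc', hn, hψ'⟩ := h y
    have h1 := (𝒜.compat c hc c' hc' y (hψ ▸ hy) hn.1).2 a b
    rw [c.ex_apply c' id (hψ ▸ hy), id, hn.2.1, hn.2.2, Chart.ex, hψ, hψ'] at h1
    exact h1
  let B : E →L[ℝ] E →L[ℝ] ℝ := innerSL ℝ
  have hs : ∀ v w : E, B v w = B w v := fun v w => real_inner_comm w v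
  have hp : ∀ v : E, v ≠ 0 → 0 < B v v := fun v hv => real_inner_self_pos.2 hv
  let g : RiemMetric E M :=
    { inner := fun _ => B
      symm := fun _ v w => hs v w
      pos := fun _ v hv => hp v hv
      isVonNBounded := fun x => by
        change Bornology.IsVonNBounded ℝ {v : E | ⟪v, v⟫ < 1}
        apply (NormedSpace.isVonNBounded_ball ℝ E 1).subset
        intro v hv
        have h1 : ‖v‖ ^ 2 < 1 := by
          rw [← real_inner_self_eq_norm_sq]
          exact hv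
        rw [mem_ball_zero_iff]
        nlinarith [norm_nonneg v]
      contMDiff := by
        intro x
        obtain ⟨c, hc, hn, hψ⟩ := h x
        rw [Bundle.contMDiffAt_section]
        have h1 : ContMDiffAt 𝓘(ℝ, E) 𝓘(ℝ, E →L[ℝ] E →L[ℝ] ℝ) ∞ (fun y => c.G (chartAt E x y)) x :=
          ContMDiffAt.comp x (c.chr.smG.contDiffAt (c.chr.opn.mem_nhds (by
            rw [hu c hc]; exact mem_univ _))).contMDiffAt (cm_chart (mem_chart_source E x))
        apply h1.congr_of_eventuallyEq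
        filter_upwards [(chartAt E x).open_source.mem_nhds (mem_chart_source E x)] with y hy
        ext v w
        have h1 := TangentBundle.symmL_trivializationAt_eq_core (I := 𝓘(ℝ, E)) hy
        rw [tangentBundleCore_coordChange_achart] at h1
        simp only [extChartAt, OpenPartialHomeomorph.extend, mfld_simps, fderivWithin_univ] at h1
        have h2 : ∀ u : E, (trivializationAt E (TangentSpace 𝓘(ℝ, E)) x).symm y u
            = fderiv ℝ (chartAt E y ∘ (chartAt E x).symm) (chartAt E x y) u := by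
          intro u
          have h3 := congrArg (fun L : E →L[ℝ] E => L u) h1
          have h4 := Bundle.Trivialization.symmL_apply (R := ℝ)
            (trivializationAt E (TangentSpace 𝓘(ℝ, E)) x) hy u
          exact h4.symm.trans h3
        simp only [hom_trivializationAt_apply]
        rw [inCoordinates_apply_eq₂ hy hy (Set.mem_univ _), h2, h2]
        simp only [Bundle.Trivial.fiberBundle_trivializationAt',
          Bundle.Trivial.linearMapAt_trivialization, LinearMap.id_coe, id_eq]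
        exact key x y c hc hψ hy v w }
  refine ⟨g, fun x => ?_⟩
  obtain ⟨c, hc, hn, hψ⟩ := h x
  refine ⟨c, hc, hψ, fun y a b => ?_⟩
  have hy : y ∈ (chartAt E x).target := by
    rw [← hψ, hu c hc]
    exact mem_univ _
  have h1 := key x _ c hc hψ ((chartAt E x).map_target hy) a b
  rw [(chartAt E x).right_inv hy] at h1
  have h2 : dE (E := E) (chartAt E x).symm y
      = fderiv ℝ (chartAt E ((chartAt E x).symm y) ∘ (chartAt E x).symm) y := by
    rw [dE, ((cm_chart_symm hy).mdifferentiableAt (by simp)).mfderiv]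
    simp only [writtenInExtChartAt, extChartAt, OpenPartialHomeomorph.extend, mfld_simps,
      fderivWithin_univ]
  rw [coef_eq, h2, ← h1]
  rfl

theorem riemann_eq {g : RiemMetric E M} {x : M} {c : Chart E M} (hψ : c.ψ = chartAt E x)
    (hG : ∀ y a b, c.G y a b = coef g x y a b) {Γ : E → E → E → E}
    (hΓ : IsChristoffel (coef g x) Γ (chartAt E x).target) {y : E} (hy : y ∈ c.ψ.target)
    (a b e : E) : riemann Γ y a b e = Rm c.Γ y a b e := by
  have hd : ∀ z ∈ c.ψ.target, ∀ a b e : E,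
      fderiv ℝ (fun z => coef g x z b e) z a = fderiv ℝ c.G z a b e := by
    intro z hz a b e
    have e1 : (fun z => coef g x z b e) = fun z => c.G z b e := funext fun z => (hG z b e).symm
    rw [e1, (fderiv_form_apply (c.chr.diffG hz) b e).fderiv]
    simp
  have h1 : ∀ z ∈ c.ψ.target, ∀ a b, Γ z a b = c.Γ z a b := by
    intro z hz a b
    have h2 : ∀ e, c.G z (Γ z a b - c.Γ z a b) e = 0 := by
      intro e
      have h3 := hΓ z (hψ ▸ hz) a b e
      rw [hd z hz, hd z hz, hd z hz, c.chr.compat z hz, c.chr.compat z hz, c.chr.compat z hz,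
        ← hG, c.chr.symΓ z hz b a, c.chr.symΓ z hz e a, c.chr.symΓ z hz e b,
        c.chr.symm z hz a (c.Γ z b e), c.chr.symm z hz b (c.Γ z a e)] at h3
      rw [map_sub, sub_apply, h3]
      ring
    exact sub_eq_zero.1 (eq_zero_of_pos (c.chr.pos z hz) (h2 _))
  have hΓ' : DifferentiableAt ℝ c.Γ y :=
    (c.chr.smΓ.contDiffAt (c.chr.opn.mem_nhds hy)).differentiableAt (by simp)
  have h3 : ∀ a b e : E, fderiv ℝ (fun z => Γ z b e) y a = fderiv ℝ c.Γ y a b e := by
    intro a b e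
    have h4 : (fun z => Γ z b e) =ᶠ[𝓝 y] fun z => c.Γ z b e := by
      filter_upwards [c.chr.opn.mem_nhds hy] with z hz using h1 z hz b e
    rw [h4.fderiv_eq, ((hΓ'.hasFDerivAt.clm_apply (hasFDerivAt_const b y)).clm_apply
      (hasFDerivAt_const e y)).fderiv]
    simp
  rw [riemann, h3, h3, rm_apply, h1 y hy, h1 y hy, h1 y hy, h1 y hy]

theorem christoffel_model {g : RiemMetric E M} {x : M} {c : Chart E M} (hψ : c.ψ = chartAt E x)
    (hG : ∀ y a b, c.G y a b = coef g x y a b) :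
    IsChristoffel (coef g x) (fun y a b => c.Γ y a b) (chartAt E x).target := by
  have hd : ∀ z ∈ c.ψ.target, ∀ a b e : E,
      fderiv ℝ (fun z => coef g x z b e) z a = fderiv ℝ c.G z a b e := by
    intro z hz a b e
    have e1 : (fun z => coef g x z b e) = fun z => c.G z b e := funext fun z => (hG z b e).symm
    rw [e1, (fderiv_form_apply (c.chr.diffG hz) b e).fderiv]
    simp
  intro z hz a b e
  rw [← hψ] at hz
  rw [hd z hz, hd z hz, hd z hz, c.chr.compat z hz, c.chr.compat z hz, c.chr.compat z hz,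
    ← hG, c.chr.symΓ z hz b a, c.chr.symΓ z hz e a, c.chr.symΓ z hz e b,
    c.chr.symm z hz a (c.Γ z b e), c.chr.symm z hz b (c.Γ z a e)]
  ring

variable {g : RiemMetric E M} {𝒜 : Atlas E M}

theorem nonnegCurvature_of (h𝒜 : Models g 𝒜) (hn : Nonneg 𝒜) : NonnegCurvature g := by
  intro x Γ hΓ y hy a b
  obtain ⟨c, hc, hψ, hG⟩ := h𝒜 x
  rw [riemann_eq hψ hG hΓ (hψ ▸ hy), ← hG]
  exact hn c hc y (hψ ▸ hy) a b

omit [ChartedSpace E M] [IsManifold 𝓘(ℝ, E) ∞ M] in
/-- The curvature form does not depend on the chart. -/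
theorem rm_change {c c' : Chart E M} (hc : c ∈ 𝒜.S) (hc' : c' ∈ 𝒜.S) {m : M}
    (hm : m ∈ c.ψ.source) (hm' : m ∈ c'.ψ.source) :
    ∃ L : E →L[ℝ] E, Function.Injective L ∧ ∀ a b,
      c'.G (c'.ψ m) (Rm c'.Γ (c'.ψ m) (L a) (L b) (L b)) (L a)
        = c.G (c.ψ m) (Rm c.Γ (c.ψ m) a b b) a := by
  have k := (LI.id 𝒜 m).coord hc hc' hm hm'
  have k0 := k.self_of_nhds
  refine ⟨fderiv ℝ (c.ex c' id) (c.ψ m), (LinearMap.injective_iff_surjective
    (f := (fderiv ℝ (c.ex c' id) (c.ψ m) : E →ₗ[ℝ] E))).2 (IsoAt.surj c.chr k0.1 k0.2.2.2),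
    fun a b => ?_⟩
  rw [← k0.2.2.2, ← rm_iso c.chr c'.chr k0.1 k0.2.1 (k.mono fun z hz => hz.2.2),
    c.ex_apply c' id hm]
  rfl

omit [ChartedSpace E M] [IsManifold 𝓘(ℝ, E) ∞ M] in
theorem nonneg_of_centre
    (h : ∀ m, ∃ c ∈ 𝒜.S, c.NormAt m ∧ ∀ a b, 0 ≤ ⟪Rm c.Γ 0 a b b, a⟫) : Nonneg 𝒜 := by
  intro c hc y hy a b
  obtain ⟨c', hc', hn, hR⟩ := h (c.ψ.symm y)
  obtain ⟨L, -, hL⟩ := rm_change hc hc' (c.ψ.map_target hy) hn.1
  have h1 := hL a b
  rw [c.ψ.right_inv hy, hn.2.1, hn.2.2] at h1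
  rw [← h1]
  exact hR _ _

omit [ChartedSpace E M] [IsManifold 𝓘(ℝ, E) ∞ M] in
theorem pair_map {L : E →L[ℝ] E} (hL : Function.Injective L) {a b : E}
    (h : LinearIndependent ℝ ![a, b]) : LinearIndependent ℝ ![L a, L b] := by
  have h3 := h.map' (L : E →ₗ[ℝ] E) (LinearMap.ker_eq_bot.2 hL)
  have h4 : (L : E →ₗ[ℝ] E) ∘ ![a, b] = ![L a, L b] := by
    funext i
    fin_cases i <;> rfl
  rwa [h4] at h3

theorem posAt_iff (h𝒜 : Models g 𝒜) (p : M) : PosAt 𝒜 p ↔
    ∀ Γ : E → E → E → E, IsChristoffel (coef g p) Γ (chartAt E p).target →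
      ∀ a b : E, LinearIndependent ℝ ![a, b] →
        0 < coef g p (chartAt E p p) (riemann Γ (chartAt E p p) a b b) a := by
  obtain ⟨c₀, hc₀, hψ, hG⟩ := h𝒜 p
  have hp : p ∈ c₀.ψ.source := hψ ▸ mem_chart_source E p
  constructor
  · intro h Γ hΓ a b hab
    obtain ⟨c, hc, hn⟩ := 𝒜.norm p
    obtain ⟨L, hL, hL'⟩ := rm_change hc₀ hc hp hn.1
    rw [← hψ, riemann_eq hψ hG hΓ (c₀.ψ.map_source hp), ← hG, ← hL', hn.2.1, hn.2.2]
    exact h c hc hn _ _ (pair_map hL hab)
  · intro h c hc hn a b hab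
    obtain ⟨L, hL, hL'⟩ := rm_change hc hc₀ hn.1 hp
    have h1 := h _ (christoffel_model hψ hG) _ _ (pair_map hL hab)
    rw [← hψ, riemann_eq hψ hG (christoffel_model hψ hG) (c₀.ψ.map_source hp), ← hG, hL',
      hn.2.1, hn.2.2] at h1
    exact h1

theorem isGeodesic_of (h𝒜 : Models g 𝒜) {γ : ℝ → M} (h : ∀ t, GeoAt 𝒜 γ t) : IsGeodesic g γ := by
  constructor
  · intro t
    obtain ⟨c, hc, hψ, -⟩ := h𝒜 (γ t)
    have hm : γ t ∈ (chartAt E (γ t)).source := mem_chart_source E _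
    obtain ⟨u, hu⟩ := (h t).chart hc (hψ ▸ hm)
    have h1 := cgeo_smooth c.chr hu (c.ψ.map_source (hψ ▸ hm))
    rw [hψ] at h1
    refine ((cm_chart_symm ((chartAt E (γ t)).map_source hm)).comp t
      h1.contMDiffAt).congr_of_eventuallyEq ?_
    filter_upwards [(h t).continuousAt.eventually ((chartAt E (γ t)).open_source.mem_nhds hm)]
      with s hs
    exact ((chartAt E (γ t)).left_inv hs).symm
  · intro x t ht
    obtain ⟨c, hc, hψ, hG⟩ := h𝒜 x
    obtain ⟨u, hu⟩ := (h t).chart hc (hψ ▸ ht)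
    have h1 := euler_of_cgeo c.chr hu (c.ψ.map_source (hψ ▸ ht))
    have e : (fun y a b => c.G y a b) = coef g x := by
      funext y a b
      exact hG y a b
    rw [e, hψ] at h1
    exact h1

variable {E' : Type} [NormedAddCommGroup E'] [InnerProductSpace ℝ E'] [FiniteDimensional ℝ E']
  {N : Type} [TopologicalSpace N] [ChartedSpace E' N] [IsManifold 𝓘(ℝ, E') ∞ N]

theorem tg_of {k : RiemMetric E' N} {ℬ : Atlas E' N} (h𝒜 : Models g 𝒜) (hℬ : Models k ℬ)
    (hgeo : ∀ c ∈ 𝒜.S, ∀ m ∈ c.ψ.source, ∀ a : E, ∃ γ : ℝ → M, γ 0 = m ∧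
      HasDerivAt (c.ψ ∘ γ) a 0 ∧ ∀ t, GeoAt 𝒜 γ t)
    {f : M → N} (hf : ContMDiff 𝓘(ℝ, E) 𝓘(ℝ, E') ∞ f) (hi : Function.Injective f)
    (hg : ∀ γ : ℝ → M, IsGeodesic g γ → IsGeodesic k (f ∘ γ)) : TG 𝒜 ℬ f := by
  refine ⟨hf.continuous, hi, fun c hc c' hc' m hm hm' => ?_, fun c hc m hm a => ?_⟩
  · obtain ⟨c₀, hc₀, hψ, -⟩ := h𝒜 m
    obtain ⟨c₁, hc₁, hψ', -⟩ := hℬ (f m)
    have m₀ : m ∈ (chartAt E m).source := mem_chart_source E _
    have m₁ : f m ∈ (chartAt E' (f m)).source := mem_chart_source E' _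
    have h1 := (𝒜.compat c hc c₀ hc₀ m hm (hψ ▸ m₀)).1
    have h2 := (ℬ.compat c₁ hc₁ c' hc' (f m) (hψ' ▸ m₁) hm').1
    have h3 : ContDiffAt ℝ ∞ (chartAt E' (f m) ∘ f ∘ (chartAt E m).symm) (chartAt E m m) := by
      refine contMDiffAt_iff_contDiffAt.1 (ContMDiffAt.comp _ (cm_chart ?_)
        ((hf _).comp _ (cm_chart_symm ((chartAt E m).map_source m₀))))
      rw [Function.comp_apply, (chartAt E m).left_inv m₀]
      exact m₁
    have e1 : c.ex c₀ id (c.ψ m) = chartAt E m m := by rw [c.ex_apply c₀ id hm, hψ, id]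
    have e2 : (chartAt E' (f m) ∘ f ∘ (chartAt E m).symm) (chartAt E m m) = c₁.ψ (f m) := by
      simp only [Function.comp_apply, (chartAt E m).left_inv m₀, hψ']
    rw [← e2] at h2
    have h4 := h2.comp _ h3
    rw [← e1] at h4
    refine ((h4.comp _ h1).congr_of_eventuallyEq ?_).differentiableAt (by simp)
    have ht := c.ψ.tendsto_symm hm
    filter_upwards [ht.eventually ((chartAt E m).open_source.mem_nhds m₀),
      (hf.continuous.continuousAt.tendsto.comp ht).eventually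
        ((chartAt E' (f m)).open_source.mem_nhds m₁)] with y k1 k2
    simp only [ex2, Chart.ex, Function.comp, id, hψ, hψ'] at k2 ⊢
    rw [(chartAt E m).left_inv k1, (chartAt E' (f m)).left_inv k2]
  · obtain ⟨γ, h0, h1, h2⟩ := hgeo c hc m hm a
    exact ⟨γ, h0, h1, fun t => ⟨h2 t, (hg γ (isGeodesic_of h𝒜 h2)).geoAt hℬ t⟩⟩

end Pool.Agent.MP_e2979e_gt
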