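import Pool.Agent.MP_e2979e_gt.Frame
import Pool.Agent.MP_e2979e_gt.Mg.Amb

/-! Complex projective space as the space of rank one orthogonal projections. -/

set_option maxSynthPendingDepth 3
set_option linter.unusedSectionVars false

open Set Metric Filter Topology
open scoped ContDiff RealInnerProductSpace ComplexConjugate

namespace Pool.Agent.MP_e2979e_gt

open Pool.Agent.MP_3fed84_gt Pool.Agent.MP_3a00c0_gt

variable {E : Type} [NormedAddCommGroup E] [InnerProductSpace ℝ E] [FiniteDimensional ℝ E]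
  {V : Type} [NormedAddCommGroup V] [InnerProductSpace ℂ V] {x x' : V}

/-- The orthogonal projection onto the complex line through z. -/
noncomputable def pr (z : V) : V → V := fun w => (inner ℂ z w / inner ℂ z z) • z

/-- Complex projective space. -/
def CP (V : Type) [NormedAddCommGroup V] [InnerProductSpace ℂ V] : Type :=
  {p : V → V // ∃ z ≠ 0, pr z = p}

instance : TopologicalSpace (CP V) := instTopologicalSpaceSubtype

instance : T2Space (CP V) := inferInstanceAs (T2Space {p : V → V // ∃ z ≠ 0, pr z = p})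

theorem pr_smul {c : ℂ} (hc : c ≠ 0) {z : V} (hz : z ≠ 0) : pr (c • z) = pr z := by
  funext w
  have h1 : inner ℂ z z ≠ 0 := inner_self_ne_zero.2 hz
  have h2 : conj c ≠ 0 := (map_ne_zero _).2 hc
  simp only [pr, inner_smul_left, inner_smul_right, smul_smul]
  congr 1
  field_simp

theorem exists_unit {z : V} (hz : z ≠ 0) : ∃ r : ℝ, 0 < r ∧ ∃ u : V, inner ℂ u u = 1 ∧
    z = (r : ℂ) • u := by
  have h1 : 0 < ‖z‖ := norm_pos_iff.2 hz
  have h2 : ((‖z‖ : ℝ) : ℂ) ≠ 0 := Complex.ofReal_ne_zero.2 h1.ne'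
  refine ⟨‖z‖, h1, ((‖z‖ : ℝ) : ℂ)⁻¹ • z, ?_, (smul_inv_smul₀ h2 z).symm⟩
  rw [inner_smul_left, inner_smul_right, inner_self_eq_norm_sq_to_K, map_inv₀,
    Complex.conj_ofReal]
  change _ * (_ * ((‖z‖ : ℝ) : ℂ) ^ 2) = _
  field_simp

theorem unit_ne {z : V} (hz : inner ℂ z z = 1) : z ≠ 0 := fun h => by
  rw [h, inner_zero_left] at hz
  exact zero_ne_one hz

variable [Nontrivial V]

open Classical in
/-- The projection from the cone. -/
noncomputable def toP (z : V) : CP V :=
  if h : z = 0 then ⟨pr (exists_ne (0 : V)).choose, _, (exists_ne (0 : V)).choose_spec, rfl⟩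
  else ⟨pr z, z, h, rfl⟩

theorem toP_val {z : V} (hz : z ≠ 0) : (toP z).1 = pr z := by
  rw [toP, dif_neg hz]

theorem toP_smul {c : ℂ} (hc : c ≠ 0) {z : V} (hz : z ≠ 0) : toP (c • z) = toP z :=
  Subtype.ext (by rw [toP_val (smul_ne_zero hc hz), toP_val hz, pr_smul hc hz])

theorem toP_surj (p : CP V) : ∃ z, inner ℂ z z = 1 ∧ toP z = p := by
  obtain ⟨p, z, hz, rfl⟩ := p
  obtain ⟨r, hr, u, hu, rfl⟩ := exists_unit hz
  exact ⟨u, hu, Subtype.ext ((toP_val (unit_ne hu)).trans
    (pr_smul (Complex.ofReal_ne_zero.2 hr.ne') (unit_ne hu)).symm)⟩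

theorem toP_cont {z : V} (hz : z ≠ 0) : ContinuousAt toP z := by
  refine (Topology.IsInducing.subtypeVal (t := {p : V → V | ∃ z ≠ 0, pr z = p})).continuousAt_iff.2
    ?_
  have h1 : ContinuousAt pr z := by
    refine continuousAt_pi.2 fun w => ContinuousAt.smul (ContinuousAt.div ?_ ?_
      (inner_self_ne_zero.2 hz)) continuousAt_id
    · exact continuousAt_id.inner continuousAt_const
    · exact continuousAt_id.inner continuousAt_id
  refine h1.congr ?_
  filter_upwards [isOpen_ne.mem_nhds hz] with w hw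
  exact (toP_val hw).symm

theorem ev_cont (x : V) : Continuous fun p : CP V => p.1 x :=
  (continuous_apply x).comp continuous_subtype_val

theorem toP_ev {z : V} (hz : z ≠ 0) (x : V) :
    (toP z).1 x = (inner ℂ z x / inner ℂ z z) • z := by
  rw [toP_val hz, pr]

theorem toP_ev_ne {z : V} (hz : z ≠ 0) (x : V) :
    inner ℂ x ((toP z).1 x) ≠ 0 ↔ inner ℂ x z ≠ 0 := by
  rw [toP_ev hz, inner_smul_right, mul_ne_zero_iff, div_ne_zero_iff, ← inner_conj_symm z x,
    map_ne_zero]
  exact ⟨fun h => h.2, fun h => ⟨⟨h, inner_self_ne_zero.2 hz⟩, h⟩⟩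

namespace Frame

variable (F : Frame E V x)

theorem Ψ_toP {z : V} (hz : inner ℂ x z ≠ 0) : F.Ψ ((toP z).1 x) = F.Ψ z := by
  have h0 : z ≠ 0 := fun h => hz (by rw [h, inner_zero_right])
  rw [toP_ev h0, F.Ψ_smul]
  rw [div_ne_zero_iff, ← inner_conj_symm z x, map_ne_zero]
  exact ⟨hz, inner_self_ne_zero.2 h0⟩

/-- The affine chart. -/
noncomputable def chart : OpenPartialHomeomorph (CP V) E where
  toFun p := F.Ψ (p.1 x)
  invFun y := toP (x + F.i y)
  source := {p | inner ℂ x (p.1 x) ≠ 0}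
  target := univ
  map_source' _ _ := mem_univ _
  map_target' y _ := (toP_ev_ne (F.up_ne y) x).2 (by rw [F.inner_up]; exact one_ne_zero)
  left_inv' p hp := by
    obtain ⟨z, hz, rfl⟩ := toP_surj p
    have h1 := (toP_ev_ne (unit_ne hz) x).1 hp
    rw [F.Ψ_toP h1, F.up_Ψ h1, toP_smul (inv_ne_zero h1) (unit_ne hz)]
  right_inv' y _ := by
    rw [F.Ψ_toP (by rw [F.inner_up]; exact one_ne_zero), F.Ψ_up]
  open_source := isOpen_ne_fun (continuous_const.inner (ev_cont x)) continuous_const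
  open_target := isOpen_univ
  continuousOn_toFun p hp := (ContinuousAt.comp (f := fun p : CP V => p.1 x)
    (F.Ψ_smooth hp).continuousAt (ev_cont x).continuousAt).continuousWithinAt
  continuousOn_invFun y _ := (ContinuousAt.comp (f := fun y => x + F.i y) (toP_cont (F.up_ne y))
    (continuous_const.add F.i.continuous).continuousAt).continuousWithinAt

/-- The affine chart with its metric. -/
noncomputable def ch : Chart E (CP V) := ⟨F.chart, fsG F.J, fsΓ F.J, fs_chr F.isCx⟩

theorem mem_ch {z : V} (hz : z ≠ 0) : toP z ∈ F.ch.ψ.source ↔ inner ℂ x z ≠ 0 := toP_ev_ne hz x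

theorem ch_toP {z : V} (hz : inner ℂ x z ≠ 0) : F.ch.ψ (toP z) = F.Ψ z := F.Ψ_toP hz

theorem ch_symm (y : E) : F.ch.ψ.symm y = toP (x + F.i y) := rfl

theorem normAt : F.ch.NormAt (toP x) := by
  have h1 : inner ℂ x x ≠ 0 := by rw [F.unit]; exact one_ne_zero
  refine ⟨(F.mem_ch F.ne_zero).2 h1, ?_, fsG_zero⟩
  rw [F.ch_toP h1, Ψ, F.P_smul]

theorem ch_deriv {β : ℝ → V} {v : V} {t : ℝ} (hz : inner ℂ x (β t) ≠ 0) (h : HasDerivAt β v t) :
    HasDerivAt (F.ch.ψ ∘ fun s => toP (β s)) (F.D (β t) v) t := by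
  refine (F.Ψ_deriv hz h).congr_of_eventuallyEq ?_
  filter_upwards [(continuousAt_const.inner h.continuousAt).eventually_ne hz] with s hs
  exact F.ch_toP hs

end Frame

/-- The action of a unitary map. -/
noncomputable def act (U : V ≃ₗᵢ[ℂ] V) (p : CP V) : CP V :=
  ⟨fun w => U (p.1 (U.symm w)), by
    obtain ⟨z, hz, e⟩ := p.2
    refine ⟨U z, (map_ne_zero_iff U U.injective).2 hz, funext fun w => ?_⟩
    rw [← e, pr, pr, map_smul, U.inner_map_map, ← U.inner_map_map z (U.symm w),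
      U.apply_symm_apply]⟩

theorem act_toP (U : V ≃ₗᵢ[ℂ] V) {z : V} (hz : z ≠ 0) : act U (toP z) = toP (U z) := by
  refine Subtype.ext (funext fun w => ?_)
  change U ((toP z).1 (U.symm w)) = _
  rw [toP_ev hz, toP_ev ((map_ne_zero_iff U U.injective).2 hz), map_smul, U.inner_map_map,
    ← U.inner_map_map z (U.symm w), U.apply_symm_apply]

theorem act_cont (U : V ≃ₗᵢ[ℂ] V) : Continuous (act U) :=
  Continuous.subtype_mk (continuous_pi fun w => U.continuous.comp (ev_cont (U.symm w))) _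

theorem act_symm (U : V ≃ₗᵢ[ℂ] V) (p : CP V) : act U.symm (act U p) = p := by
  obtain ⟨z, hz, rfl⟩ := toP_surj p
  rw [act_toP U (unit_ne hz), act_toP _ ((map_ne_zero_iff U U.injective).2 (unit_ne hz)),
    U.symm_apply_apply]

theorem act_locIso (F : Frame E V x) (F' : Frame E V x') (U : V ≃ₗᵢ[ℂ] V) {p : CP V}
    (hp : p ∈ F.ch.ψ.source) (hp' : act U p ∈ F'.ch.ψ.source) : LocIso F.ch F'.ch (act U) p := by
  have hne : ∀ y, U (x + F.i y) ≠ 0 := fun y => (map_ne_zero_iff U U.injective).2 (F.up_ne y)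
  have h1 : inner ℂ x' (U (x + F.i (F.ch.ψ p))) ≠ 0 := by
    rw [← F'.mem_ch (hne _), ← act_toP U (F.up_ne _), ← F.ch_symm, F.ch.ψ.left_inv hp]
    exact hp'
  have h2 : (fun y => F'.Ψ (U (x + F.i y))) =ᶠ[𝓝 (F.ch.ψ p)] F.ch.ex F'.ch (act U) := by
    have h3 : Continuous fun y => inner ℂ x' (U (x + F.i y)) :=
      continuous_const.inner (U.continuous.comp (continuous_const.add F.i.continuous))
    filter_upwards [h3.continuousAt.eventually_ne h1] with y hy
    rw [← F'.ch_toP hy, ← act_toP U (F.up_ne _)]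
    rfl
  obtain ⟨k1, k2⟩ := F.trans F' U h1
  exact ⟨k1.congr_of_eventuallyEq h2.symm, k2.congr h2⟩

/-- The atlas of affine charts. -/
noncomputable def atl (hF : ∀ x : V, inner ℂ x x = 1 → Nonempty (Frame E V x)) :
    Atlas E (CP V) where
  S := {c | ∃ (x : V) (F : Frame E V x), c = F.ch}
  norm m := by
    obtain ⟨z, hz, rfl⟩ := toP_surj m
    obtain ⟨F⟩ := hF z hz
    exact ⟨F.ch, ⟨z, F, rfl⟩, F.normAt⟩
  compat := by
    rintro _ ⟨x, F, rfl⟩ _ ⟨x', F', rfl⟩ m hm hm'
    exact act_locIso F F' (LinearIsometryEquiv.refl ℂ V) hm hm'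

variable {hF : ∀ x : V, inner ℂ x x = 1 → Nonempty (Frame E V x)}

theorem act_li0 (U : V ≃ₗᵢ[ℂ] V) (p : CP V) : LI0 (atl hF) (atl hF) (act U) p := by
  refine ⟨(act_cont U).continuousAt, ?_⟩
  rintro _ ⟨x, F, rfl⟩ _ ⟨x', F', rfl⟩ hm hm'
  exact act_locIso F F' U hm hm'

/-- A horizontal great circle. -/
noncomputable def circ (z v : V) (s : ℝ) : V := (Real.cos s : ℂ) • z + (Real.sin s : ℂ) • v

theorem circ_geo_zero {z v : V} (hz : inner ℂ z z = 1) (hv : inner ℂ v v = 1)
    (hzv : inner ℂ z v = 0) : GeoAt (atl hF) (fun s => toP (circ z v s)) 0 := by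
  obtain ⟨F⟩ := hF z hz
  have h1 : F.i (F.P v) = v := F.iP_orth hzv
  have h2 : ⟪F.P v, F.P v⟫ = 1 := by rw [← F.re, h1, hv, Complex.one_re]
  refine (GeoAt.of_coord (𝒜 := atl hF) (c := F.ch) ⟨z, F, rfl⟩ (fs_geo F.isCx h2)
    (mem_univ _)).congr ?_
  have hc : ∀ᶠ s in 𝓝 (0 : ℝ), Real.cos s ≠ 0 :=
    Real.continuous_cos.continuousAt.eventually_ne (by simp)
  filter_upwards [hc] with s hs
  have h3 : (Real.cos s : ℂ) ≠ 0 := Complex.ofReal_ne_zero.2 hs
  rw [Function.comp_apply, F.ch_symm, ← toP_smul h3 (F.up_ne _), map_smul, h1, smul_add,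
    ← Complex.coe_smul, smul_smul, ← Complex.ofReal_mul, Real.tan_eq_sin_div_cos,
    mul_div_cancel₀ _ hs, circ]

theorem circ_geo {z v : V} (hz : inner ℂ z z = 1) (hv : inner ℂ v v = 1)
    (hzv : inner ℂ z v = 0) (r t : ℝ) : GeoAt (atl hF) (fun s => toP (circ z v (r * s))) t := by
  have hvz : inner ℂ v z = 0 := by rw [← inner_conj_symm, hzv, map_zero]
  have hsq : (Real.cos (r * t) : ℂ) ^ 2 + (Real.sin (r * t) : ℂ) ^ 2 = 1 := by
    exact_mod_cast Real.cos_sq_add_sin_sq (r * t)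
  have h1 := circ_geo_zero (hF := hF) (z := circ z v (r * t)) (v := circ v (-z) (r * t))
    (by
      simp only [circ, inner_add_left, inner_add_right, inner_smul_left, inner_smul_right, hz, hv,
        hzv, hvz, Complex.conj_ofReal]
      linear_combination hsq)
    (by
      simp only [circ, inner_add_left, inner_add_right, inner_smul_left, inner_smul_right, hz, hv,
        hzv, hvz, Complex.conj_ofReal, inner_neg_left, inner_neg_right]
      linear_combination hsq)
    (by
      simp only [circ, inner_add_left, inner_add_right, inner_smul_left, inner_smul_right, hz, hv,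
        hzv, hvz, Complex.conj_ofReal, inner_neg_left, inner_neg_right]
      ring)
  have h2 := GeoAt.affine (a := r) (b := -(r * t)) (t := t) (by rwa [add_neg_cancel])
  refine h2.congr (Eventually.of_forall fun s => congrArg toP ?_)
  have e : r * s = (r * s + -(r * t)) + r * t := by ring
  conv_rhs => rw [e]
  simp only [circ, Real.cos_add (r * s + -(r * t)), Real.sin_add (r * s + -(r * t))]
  push_cast
  module

theorem circ_deriv (z v : V) (r : ℝ) :
    HasDerivAt (fun s => circ z v (r * s)) ((r : ℂ) • v) 0 := by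
  have h0 : HasDerivAt (fun s : ℝ => r * s) r 0 := by simpa using (hasDerivAt_id (0 : ℝ)).const_mul r
  have h1 := (h0.cos.smul_const z).add (h0.sin.smul_const v)
  refine (h1.congr_deriv ?_).congr_of_eventuallyEq (Eventually.of_forall fun s => ?_)
  · simp
  · simp only [circ, Complex.coe_smul, Pi.add_apply]

theorem circ_zero (z v : V) (r : ℝ) : circ z v (r * 0) = z := by simp [circ]

theorem atl_geo (c : Chart E (CP V)) (hc : c ∈ (atl hF).S) (m : CP V) (hm : m ∈ c.ψ.source)
    (a : E) : ∃ γ : ℝ → CP V, γ 0 = m ∧ HasDerivAt (c.ψ ∘ γ) a 0 ∧ ∀ t, GeoAt (atl hF) γ t := by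
  obtain ⟨x, F, rfl⟩ := hc
  obtain ⟨z, hz, rfl⟩ := toP_surj m
  have h1 := (F.mem_ch (unit_ne hz)).1 hm
  set v := inner ℂ x z • F.i a - inner ℂ z (inner ℂ x z • F.i a) • z with hv
  have h2 : inner ℂ z v = 0 := by
    rw [hv, inner_sub_right, inner_smul_right z z, hz, mul_one, sub_self]
  have h3 : F.D z v = a := by
    refine F.ext_i ?_
    rw [F.i_D h1, hv, inner_sub_right, inner_smul_right x (F.i a), F.orth, inner_smul_right x z]
    match_scalars
    · field_simp
    · field_simp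
      ring
  by_cases h0 : v = 0
  · refine ⟨fun _ => toP z, rfl, ?_, geoAt_const _ _⟩
    have h4 := F.ch_deriv (β := fun _ => z) (t := 0) h1 (hasDerivAt_const (0 : ℝ) z)
    rwa [← h0, h3] at h4
  · obtain ⟨r, hr, u, hu, e⟩ := exists_unit h0
    have h4 : inner ℂ z u = 0 := by
      rw [e, inner_smul_right, mul_eq_zero] at h2
      exact h2.resolve_left (Complex.ofReal_ne_zero.2 hr.ne')
    refine ⟨fun s => toP (circ z u (r * s)), by simp only [circ_zero], ?_, circ_geo hz hu h4 r⟩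
    have h5 := F.ch_deriv (β := fun s => circ z u (r * s)) (t := 0)
      (by simpa only [circ_zero] using h1) (circ_deriv z u r)
    simp only [circ_zero] at h5
    rwa [← e, h3] at h5

theorem atl_nonneg_centre (m : CP V) :
    ∃ c ∈ (atl hF).S, c.NormAt m ∧ ∀ a b, 0 ≤ ⟪Rm c.Γ 0 a b b, a⟫ := by
  obtain ⟨_, ⟨x, F, rfl⟩, hn⟩ := (atl hF).norm m
  exact ⟨F.ch, ⟨x, F, rfl⟩, hn, fs_curv_nonneg F.isCx⟩

theorem atl_posAt (m : CP V) : PosAt (atl hF) m := by
  rintro _ ⟨x, F, rfl⟩ - v w h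
  exact fs_curv_pos F.isCx h

variable [FiniteDimensional ℂ V]

theorem atl_star (hd : 2 < Module.finrank ℂ V) : Star (atl hF) := by
  intro m
  obtain ⟨z, hz, rfl⟩ := toP_surj m
  obtain ⟨F⟩ := hF z hz
  refine ⟨F.ch, ⟨z, F, rfl⟩, F.normAt.1, fun l S hS => ?_⟩
  obtain ⟨a₀, ha₀⟩ := (InnerProductSpace.toDual ℝ E).surjective (LinearMap.toContinuousLinearMap l)
  have hl : ∀ a, l a = ⟪a₀, a⟫ := fun a => (congrArg (fun L : E →L[ℝ] ℝ => L a) ha₀).symm
  set A := F.i a₀ with hA
  have hzA : inner ℂ z A = 0 := F.orth a₀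
  have key : ∀ (α : ℝ) (v : V), v ≠ 0 → inner ℂ z v = 0 → (inner ℂ A v).re = 0 →
      toP ((α : ℂ) • z + v) ∈ S := by
    intro α v h0 h1 h2
    obtain ⟨r, hr, u, hu, rfl⟩ := exists_unit h0
    have hr' : (r : ℂ) ≠ 0 := Complex.ofReal_ne_zero.2 hr.ne'
    rw [inner_smul_right, mul_eq_zero] at h1
    have h3 := h1.resolve_left hr'
    rw [inner_smul_right, Complex.re_ofReal_mul, mul_eq_zero] at h2
    have h4 := h2.resolve_left hr.ne'
    have h5 := F.ch_deriv (β := fun s => circ z u (1 * s)) (t := 0)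
      (by simp only [circ_zero, hz]; exact one_ne_zero) (circ_deriv z u 1)
    simp only [circ_zero] at h5
    rw [Complex.ofReal_one, one_smul, F.D_self] at h5
    have h6 := hS _ _ (by simp only [circ_zero]) (circ_geo hz hu h3 1) h5
      (by rw [hl, ← F.re, F.iP_orth h3]; exact h4) (Complex.arg ⟨α, r⟩)
    have h7 : (⟨α, r⟩ : ℂ) ≠ 0 := fun h => hr.ne' (congrArg Complex.im h)
    have h8 : ((‖(⟨α, r⟩ : ℂ)‖ : ℝ) : ℂ) ≠ 0 := Complex.ofReal_ne_zero.2 (norm_ne_zero_iff.2 h7)
    have h9 : (α : ℂ) • z + (r : ℂ) • u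
        = ((‖(⟨α, r⟩ : ℂ)‖ : ℝ) : ℂ) • circ z u (1 * Complex.arg ⟨α, r⟩) := by
      rw [one_mul, circ, smul_add, smul_smul, smul_smul, ← Complex.ofReal_mul,
        ← Complex.ofReal_mul, Complex.norm_mul_cos_arg, Complex.norm_mul_sin_arg]
    have h10 : circ z u (1 * Complex.arg ⟨α, r⟩) ≠ 0 := fun h => by
      have h11 := congrArg (inner ℂ u) h9
      have huz : inner ℂ u z = 0 := by rw [← inner_conj_symm, h3, map_zero]
      rw [h, smul_zero, inner_zero_right, inner_add_right, inner_smul_right, inner_smul_right, huz,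
        hu, mul_zero, zero_add, mul_one] at h11
      exact hr' h11
    rw [h9, toP_smul h8 h10]
    exact h6
  obtain ⟨q₀, hq₀, hq0⟩ := (Submodule.ne_bot_iff _).1
    ((((innerSL ℂ z).prod (innerSL ℂ A) : V →L[ℂ] ℂ × ℂ) : V →ₗ[ℂ] ℂ × ℂ).ker_ne_bot_of_finrank_lt
      (by simpa using hd))
  obtain ⟨r, hr, q, hq, rfl⟩ := exists_unit hq0
  have hr' : (r : ℂ) ≠ 0 := Complex.ofReal_ne_zero.2 hr.ne'
  have hzq : inner ℂ z q = 0 := by
    have : inner ℂ z ((r : ℂ) • q) = 0 := congrArg Prod.fst hq₀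
    rw [inner_smul_right, mul_eq_zero] at this
    exact this.resolve_left hr'
  have hAq : inner ℂ A q = 0 := by
    have : inner ℂ A ((r : ℂ) • q) = 0 := congrArg Prod.snd hq₀
    rw [inner_smul_right, mul_eq_zero] at this
    exact this.resolve_left hr'
  obtain ⟨F₁⟩ := hF q hq
  refine ⟨toP q, by simpa using key 0 q (unit_ne hq) hzq (by rw [hAq]; rfl), F₁.ch, ⟨q, F₁, rfl⟩,
    F₁.normAt.1, fun K hK => ?_⟩
  have k2 : ∀ (c : ℂ) (α : ℝ) (v : V), inner ℂ z v = 0 → (inner ℂ A v).re = 0 →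
      F₁.P (c • ((α : ℂ) • z + v)) ∈ K := by
    intro c α v h1 h2
    rcases eq_or_ne c 0 with rfl | hc
    · rw [zero_smul, map_zero]
      exact K.zero_mem
    set w := c • ((α : ℂ) • z + v) with hw
    have h3 : HasDerivAt (fun s : ℝ => q + s • w) w 0 := by
      simpa using ((hasDerivAt_id (0 : ℝ)).smul_const w).const_add q
    have h4 := F₁.ch_deriv (β := fun s : ℝ => q + s • w) (t := 0)
      (by simp only [zero_smul, add_zero, hq]; exact one_ne_zero) h3
    simp only [zero_smul, add_zero, F₁.D_self] at h4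
    have h5 : q + (0 : ℝ) • w ≠ 0 := by
      rw [zero_smul, add_zero]
      exact unit_ne hq
    refine hK (fun s : ℝ => toP (q + s • w)) _ (by simp only [zero_smul, add_zero])
      (ContinuousAt.comp (f := fun s : ℝ => q + s • w) (toP_cont h5) h3.continuousAt) ?_ h4
    have h6 : ContinuousAt (fun s : ℝ => c⁻¹ • q + (s : ℂ) • v) 0 := by fun_prop
    filter_upwards [h3.continuousAt.eventually_ne h5, h6.eventually_ne (y := 0) (by
      simpa [hc] using unit_ne hq)] with s k1 k2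
    have h7 := key (s * α) _ k2
      (by rw [inner_add_right, inner_smul_right, inner_smul_right, hzq, h1]; simp)
      (by rw [inner_add_right, inner_smul_right, inner_smul_right, hAq, mul_zero, zero_add,
        Complex.re_ofReal_mul, h2, mul_zero])
    have h8 : ((s * α : ℝ) : ℂ) • z + (c⁻¹ • q + (s : ℂ) • v) = c⁻¹ • (q + s • w) := by
      rw [hw, ← Complex.coe_smul]
      push_cast
      match_scalars <;> field_simp
    rwa [h8, toP_smul (inv_ne_zero hc) k1] at h7
  refine eq_top_iff.2 fun b _ => ?_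
  set W := F₁.i b with hW
  set t : ℝ := (inner ℂ A W).re / (inner ℂ A A).re with ht
  have hAz : inner ℂ A z = 0 := by rw [← inner_conj_symm, hzA, map_zero]
  have e : b = F₁.P (inner ℂ z W • (((1 : ℝ) : ℂ) • z + 0))
      + F₁.P ((1 : ℂ) • (((0 : ℝ) : ℂ) • z + (W - inner ℂ z W • z - (t : ℂ) • A)))
      + F₁.P ((-(t : ℂ) * Complex.I) • (((0 : ℝ) : ℂ) • z + Complex.I • A)) := by
    rw [← map_add, ← map_add, ← F₁.Pi b, ← hW]
    congr 1
    push_cast
    match_scalars
    · ring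
    · ring
    · linear_combination (t : ℂ) * Complex.I_mul_I
  rw [e]
  refine K.add_mem (K.add_mem (k2 _ _ _ (inner_zero_right _) (by simp)) (k2 _ _ _ ?_ ?_))
    (k2 _ _ _ ?_ ?_)
  · rw [inner_sub_right, inner_sub_right, inner_smul_right, inner_smul_right, hz, hzA]
    ring
  · rw [inner_sub_right, inner_sub_right, inner_smul_right, inner_smul_right, hAz, mul_zero,
      sub_zero, Complex.sub_re, Complex.re_ofReal_mul, ht]
    rcases eq_or_ne A 0 with h0 | h0
    · simp [h0]
    · have h1 : 0 < (inner ℂ A A).re := (re_inner_self_pos (𝕜 := ℂ)).2 h0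
      rw [div_mul_cancel₀ _ h1.ne', sub_self]
  · rw [inner_smul_right, hzA, mul_zero]
  · rw [inner_smul_right, Complex.I_mul_re, hA, F.im, F.isCx.self, neg_zero]

theorem cp_compact : CompactSpace (CP V) := by
  have : ProperSpace V := FiniteDimensional.proper ℂ V
  refine ⟨?_⟩
  have h1 : (univ : Set (CP V)) = toP '' sphere (0 : V) 1 := by
    refine (eq_univ_of_forall fun p => ?_).symm
    obtain ⟨z, hz, rfl⟩ := toP_surj p
    refine ⟨z, ?_, rfl⟩
    rw [inner_self_eq_norm_sq_to_K] at hz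
    have h5 : ‖z‖ ^ 2 = 1 := Complex.ofReal_injective (by push_cast; exact hz)
    exact mem_sphere_zero_iff_norm.2 ((pow_eq_one_iff_of_nonneg (norm_nonneg z) two_ne_zero).1 h5)
  rw [h1]
  refine (isCompact_sphere (0 : V) 1).image_of_continuousOn fun z hz =>
    (toP_cont ?_).continuousWithinAt
  rintro rfl
  simp at hz

theorem cp_connected : ConnectedSpace (CP V) := by
  have h0 : 1 < Module.rank ℝ V := by
    have h1 : 0 < Module.finrank ℂ V := Module.finrank_pos
    rw [← Module.finrank_eq_rank, finrank_real_of_complex]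
    exact_mod_cast (by omega : 1 < 2 * Module.finrank ℂ V)
  rw [connectedSpace_iff_univ]
  have h1 : (univ : Set (CP V)) = toP '' {(0 : V)}ᶜ := by
    refine (eq_univ_of_forall fun p => ?_).symm
    obtain ⟨z, hz, rfl⟩ := toP_surj p
    exact ⟨z, unit_ne hz, rfl⟩
  rw [h1]
  exact (isConnected_compl_singleton_of_one_lt_rank h0 0).image _ fun z hz =>
    (toP_cont hz).continuousWithinAt

theorem cp_trans (p q : CP V) : ∃ U : V ≃ₗᵢ[ℂ] V, act U p = q := by
  obtain ⟨z, hz, rfl⟩ := toP_surj p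
  obtain ⟨w, hw, rfl⟩ := toP_surj q
  obtain ⟨U, rfl⟩ := exists_unitary hz hw
  exact ⟨U, act_toP U (unit_ne hz)⟩

end Pool.Agent.MP_e2979e_gt
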