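import Pool.Agent.MP_e2979e_gt.Defs
import Pool.Agent.MP_e2979e_gt.Mg.Build
import Pool.Agent.MP_e2979e_gt.Mg.Proj

/-! Complex projective space is not a totally geodesic hypersurface of a homogeneous space of
quasi-positive curvature. -/

open Set Metric Filter Topology
open scoped Manifold ContDiff RealInnerProductSpace

namespace Pool.Agent.MP_e2979e_gt

open Pool.Agent.MP_3fed84_gt Pool.Agent.MP_3a00c0_gt

theorem mem_orbit_self {n : ℕ} (X : ClosedRiem n) (x : X.M) : x ∈ X.orbit x :=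
  ⟨Diffeomorph.refl _ _ _, ⟨contMDiff_id, fun m a b => pullback_id X.g m a b⟩, rfl⟩

theorem main (m : ℕ) (hm : 2 ≤ m) : ∃ X : ClosedRiem (2 * m), X.QuasiPositive ∧
    (∀ x, X.orbit x = univ) ∧ ∀ Y : ClosedRiem (2 * m + 1), Y.QuasiPositive →
      Nonempty (Y.Orbits ≃ X.Orbits) → ∀ f : X.M → Y.M, ¬ GeodesicInjection X Y f := by
  let V := EuclideanSpace ℂ (Fin (m + 1))
  have hV : Module.finrank ℂ V = m + 1 := finrank_euclideanSpace_fin
  have hE : Module.finrank ℝ (Euc (2 * m)) = 2 * m := finrank_euclideanSpace_fin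
  have hE' : Module.finrank ℝ (Euc (2 * m + 1)) = 2 * m + 1 := finrank_euclideanSpace_fin
  have : Nontrivial V := Module.nontrivial_of_finrank_pos (R := ℂ) (by omega)
  have hF : ∀ x : V, inner ℂ x x = 1 → Nonempty (Frame (Euc (2 * m)) V x) := fun x hx =>
    exists_frame (by omega) hx
  obtain ⟨cs, hcs, hat⟩ := exists_cs (atl hF)
  have := isManifold_of (atl hF) hat
  obtain ⟨g, hg⟩ := exists_metric (atl hF) (by rintro _ ⟨x, F, rfl⟩; rfl) hcs
  have := cp_compact (V := V)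
  have := cp_connected (V := V)
  let X : ClosedRiem (2 * m) := { M := CP V, g := g }
  have hX : ∀ x, X.orbit x = univ := by
    intro x
    refine eq_univ_of_forall fun y => ?_
    obtain ⟨U, rfl⟩ := cp_trans x y
    have h1 := contMDiff_of_li hg hg (act_li0 U)
    have h2 := contMDiff_of_li hg hg (act_li0 U.symm)
    exact ⟨⟨⟨act U, act U.symm, act_symm U, act_symm U.symm⟩, h1.1, h2.1⟩, h1, rfl⟩
  obtain ⟨p₀⟩ : Nonempty (CP V) := inferInstance
  refine ⟨X, ⟨nonnegCurvature_of hg (nonneg_of_centre atl_nonneg_centre), p₀,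
    (posAt_iff hg p₀).1 (atl_posAt p₀)⟩, hX, ?_⟩
  rintro Y ⟨hn, q₀, hq₀⟩ ⟨e⟩ f ⟨h1, h2, h3⟩
  obtain ⟨ℬ, hℬ⟩ := exists_models Y.g
  refine no_hypersurface (atl_star (hF := hF) (by omega)) (nonneg_of_models hℬ hn)
    ((posAt_iff hℬ q₀).2 hq₀) (fun p q => ?_) (by omega) (by omega) p₀
    (tg_of hg hℬ atl_geo h1 h2 h3)
  have k1 : ∀ O O' : X.Orbits, O = O' := by
    rintro ⟨_, x, rfl⟩ ⟨_, x', rfl⟩
    exact Subtype.ext ((hX x).trans (hX x').symm)
  have k2 : Y.orbit p = Y.orbit q :=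
    congrArg Subtype.val (e.injective (k1 (e ⟨_, p, rfl⟩) (e ⟨_, q, rfl⟩)))
  obtain ⟨φ, k3, k4⟩ : q ∈ Y.orbit p := k2 ▸ mem_orbit_self Y q
  exact ⟨φ, li0_of_isometry hℬ k3, φ.injective, k4⟩

end Pool.Agent.MP_e2979e_gt
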